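import Pool.Agent.H734.Amalg.Main

/-! # Degree-preserving amalgamation of real zero polynomials fails with two shared variables

The counterexample has degree four and one further variable on each side. With
`s = x1 + x2` and `u = x1 x2` it is
`p = 1 + 4 s + 2 s ^ 2 + 8 u + 4 u s + y (1 + 2 x1) (1 + 2 x2)` and
`q = (1 + z) ^ 2 + 2 (s + 2 + z) (u (2 + z) + s (1 + z))`.
Here `q` is a dehomogenization of a hyperbolic quartic of Vamos type in which `x1`, `x2` and the
two halves `C`, `D` of the base point have rank two, and `y` is a direction of rank one common to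
the spans of `x1` and `x2`. -/

set_option autoImplicit false

open MvPolynomial Pool.Agent.H734.Amalg

/-- There are real zero polynomials `p(x1, x2, y)` and `q(x1, x2, z)` of degree at most four with
`p(x, 0) = q(x, 0)` such that no real zero polynomial `r(x1, x2, y, z)` of degree at most four
satisfies `r(x, y, 0) = p` and `r(x, 0, z) = q`. -/
theorem Pool.Agent.Results.MP_eea824_ag.NoAmalgam.result :
    ∃ p q : MvPolynomial (Fin 2 ⊕ Fin 1) ℝ,
      RealZero p ∧ RealZero q ∧ p.totalDegree ≤ 4 ∧ q.totalDegree ≤ 4 ∧ restX p = restX q ∧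
      ¬ ∃ r : MvPolynomial (Fin 2 ⊕ (Fin 1 ⊕ Fin 1)) ℝ,
        RealZero r ∧ r.totalDegree ≤ 4 ∧ restXY r = p ∧ restXZ r = q :=
  ⟨pp, qq, realZero_pp, realZero_qq, deg_pp, deg_qq, rest_eq,
    fun ⟨r, hr, hd, hp, hq⟩ => no_amalgam r hd hr hp hq⟩
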